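import Pool.Agent.Helper94.DN.St

/-!
# Module RES of project DN: the sum of `1 / A` over few residue classes
-/

set_option autoImplicit false

namespace Pool.Agent.Helper98.DN

open Pool.Agent.Helper94.DN Finset

private lemma cls (q Y r : ℕ) (hq : 2 ≤ q) :
    ∑ A ∈ (Icc q Y).filter (fun A => A % q = r), (1 : ℝ) / A ≤ (1 + Real.log Y) / q := by
  have hq0 : (0 : ℝ) < q := by exact_mod_cast (by omega : 0 < q)
  have h1 : ∀ A ∈ (Icc q Y).filter (fun A => A % q = r), (1 : ℝ) / A ≤ 1 / q * (((A / q : ℕ) : ℝ))⁻¹ := by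
    intro A hA
    have h2 := mem_Icc.1 (mem_filter.1 hA).1
    have h3 : 1 ≤ A / q := (Nat.one_le_div_iff (by omega)).2 h2.1
    have h4 : q * (A / q) ≤ A := Nat.mul_div_le A q
    have h5 : (0 : ℝ) < ((A / q : ℕ) : ℝ) := by exact_mod_cast h3
    have h6 : (q : ℝ) * ((A / q : ℕ) : ℝ) ≤ A := by exact_mod_cast h4
    have h7 : (1 : ℝ) / q * (((A / q : ℕ) : ℝ))⁻¹ = 1 / (q * ((A / q : ℕ) : ℝ)) := by
      field_simp
    rw [h7]
    exact one_div_le_one_div_of_le (by positivity) h6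
  calc ∑ A ∈ (Icc q Y).filter (fun A => A % q = r), (1 : ℝ) / A
      ≤ ∑ A ∈ (Icc q Y).filter (fun A => A % q = r), 1 / q * (((A / q : ℕ) : ℝ))⁻¹ := sum_le_sum h1
    _ = ∑ j ∈ ((Icc q Y).filter (fun A => A % q = r)).image (fun A => A / q), 1 / (q : ℝ) * ((j : ℝ))⁻¹ := by
        rw [sum_image]
        intro A hA B hB hAB
        have a := (mem_filter.1 (mem_coe.1 hA)).2
        have b := (mem_filter.1 (mem_coe.1 hB)).2
        have c : A / q = B / q := hAB
        rw [← Nat.div_add_mod A q, ← Nat.div_add_mod B q, a, b, c]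
    _ ≤ ∑ j ∈ Icc 1 Y, 1 / (q : ℝ) * ((j : ℝ))⁻¹ := by
        refine sum_le_sum_of_subset_of_nonneg ?_ (fun j _ _ => by positivity)
        intro j hj
        obtain ⟨A, hA, rfl⟩ := mem_image.1 hj
        have h2 := mem_Icc.1 (mem_filter.1 hA).1
        exact mem_Icc.2 ⟨(Nat.one_le_div_iff (by omega)).2 h2.1, (Nat.div_le_self A q).trans h2.2⟩
    _ = 1 / q * ((harmonic Y : ℚ) : ℝ) := by
        rw [← mul_sum, harmonic_eq_sum_Icc]
        push_cast
        rfl
    _ ≤ 1 / q * (1 + Real.log Y) := mul_le_mul_of_nonneg_left (harmonic_le_one_add_log Y) (by positivity)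
    _ = (1 + Real.log Y) / q := by ring

private lemma dvs (n : ℕ) (hn : n ≠ 0) : #n.divisors ≤ 2 * Nat.sqrt n := by
  have hsub : n.divisors ⊆ Icc 1 (Nat.sqrt n) ∪ (Icc 1 (Nat.sqrt n)).image (fun d => n / d) := by
    intro d hd
    have h1 := Nat.dvd_of_mem_divisors hd
    have h0 : 0 < d := Nat.pos_of_mem_divisors hd
    rcases Nat.lt_or_ge (Nat.sqrt n) d with h | h
    · refine mem_union_right _ (mem_image.2 ⟨n / d, mem_Icc.2 ⟨?_, ?_⟩, ?_⟩)
      · exact (Nat.one_le_div_iff h0).2 (Nat.le_of_dvd (Nat.pos_of_ne_zero hn) h1)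
      · by_contra hc
        push Not at hc
        have h2 : n < (Nat.sqrt n + 1) * (Nat.sqrt n + 1) := Nat.lt_succ_sqrt n
        have h3 : n / d * d = n := Nat.div_mul_cancel h1
        have h4 : (Nat.sqrt n + 1) * (Nat.sqrt n + 1) ≤ n / d * d := Nat.mul_le_mul hc h
        omega
      · exact Nat.div_div_self h1 hn
    · exact mem_union_left _ (mem_Icc.2 ⟨h0, h⟩)
  calc #n.divisors ≤ #(Icc 1 (Nat.sqrt n) ∪ (Icc 1 (Nat.sqrt n)).image (fun d => n / d)) := card_le_card hsub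
    _ ≤ #(Icc 1 (Nat.sqrt n)) + #((Icc 1 (Nat.sqrt n)).image (fun d => n / d)) := card_union_le _ _
    _ ≤ #(Icc 1 (Nat.sqrt n)) + #(Icc 1 (Nat.sqrt n)) := Nat.add_le_add_left card_image_le _
    _ = 2 * Nat.sqrt n := by rw [Nat.card_Icc]; omega

open Classical in
/-- the form over the natural numbers -/
theorem resNat (q Y : ℕ) (hq : 2 ≤ q) (hY : 1 ≤ Y) :
    ∑ A ∈ (Icc q Y).filter (fun A : ℕ => ∃ N : ℕ, N ∣ q - 1 ∧
      ((q : ℤ) ∣ (A : ℤ) - N ∨ (q : ℤ) ∣ (A : ℤ) + N)), (1 : ℝ) / (A : ℝ) ≤ 4 * (1 + Real.log Y) / √q := by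
  have hq0 : (0 : ℝ) < q := by exact_mod_cast (by omega : 0 < q)
  have hL : 0 ≤ 1 + Real.log Y := by
    have := Real.log_nonneg (show (1 : ℝ) ≤ Y by exact_mod_cast hY)
    linarith
  set T := (q - 1).divisors with hT
  have hpt : ∀ A ∈ (Icc q Y).filter (fun A : ℕ => ∃ N : ℕ, N ∣ q - 1 ∧
      ((q : ℤ) ∣ (A : ℤ) - N ∨ (q : ℤ) ∣ (A : ℤ) + N)), (1 : ℝ) / A ≤
      ∑ N ∈ T, ((if A % q = N then (1 : ℝ) / A else 0) + (if A % q = q - N then (1 : ℝ) / A else 0)) := by
    intro A hA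
    obtain ⟨N, hN, hd⟩ := (mem_filter.1 hA).2
    have hN0 : 0 < N := Nat.pos_of_dvd_of_pos hN (by omega)
    have hN1 : N ≤ q - 1 := Nat.le_of_dvd (by omega) hN
    have hA0 : (0 : ℝ) ≤ 1 / A := by positivity
    have hmem : N ∈ T := Nat.mem_divisors.2 ⟨hN, by omega⟩
    refine le_trans ?_ (single_le_sum (f := fun N => ((if A % q = N then (1 : ℝ) / A else 0) +
      (if A % q = q - N then (1 : ℝ) / A else 0))) (fun N _ => ?_) hmem)
    · rcases hd with hd | hd
      · have : A % q = N := by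
          have h1 : ((A : ℤ)) % q = (N : ℤ) % q := Int.emod_eq_emod_iff_emod_sub_eq_zero.2 (Int.emod_eq_zero_of_dvd hd)
          have h2 : A % q = N % q := by exact_mod_cast h1
          rw [h2, Nat.mod_eq_of_lt (by omega)]
        rw [if_pos this]
        have : (0 : ℝ) ≤ if A % q = q - N then (1 : ℝ) / A else 0 := by split_ifs <;> positivity
        linarith
      · have : A % q = q - N := by
          have h0 : (q : ℤ) ∣ (A : ℤ) - ((q - N : ℕ) : ℤ) := by
            rw [Nat.cast_sub (by omega)]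
            have : (A : ℤ) - ((q : ℤ) - N) = (A + N) - q := by ring
            rw [this]
            exact dvd_sub hd (dvd_refl _)
          have h1 : ((A : ℤ)) % q = ((q - N : ℕ) : ℤ) % q := Int.emod_eq_emod_iff_emod_sub_eq_zero.2 (Int.emod_eq_zero_of_dvd h0)
          have h2 : A % q = (q - N) % q := by exact_mod_cast h1
          rw [h2, Nat.mod_eq_of_lt (by omega)]
        rw [if_pos this]
        have : (0 : ℝ) ≤ if A % q = N then (1 : ℝ) / A else 0 := by split_ifs <;> positivity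
        linarith
    · have h1 : (0 : ℝ) ≤ if A % q = N then (1 : ℝ) / A else 0 := by split_ifs <;> positivity
      have h2 : (0 : ℝ) ≤ if A % q = q - N then (1 : ℝ) / A else 0 := by split_ifs <;> positivity
      exact add_nonneg h1 h2
  have hcard : (#T : ℝ) ≤ 2 * √q := by
    have h1 : #T ≤ 2 * Nat.sqrt (q - 1) := dvs (q - 1) (by omega)
    have h2 : ((Nat.sqrt (q - 1) : ℕ) : ℝ) ≤ √q := by
      refine Real.le_sqrt_of_sq_le ?_
      have : Nat.sqrt (q - 1) ^ 2 ≤ q := (Nat.sqrt_le' _).trans (Nat.sub_le _ _)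
      exact_mod_cast this
    have h3 : (#T : ℝ) ≤ ((2 * Nat.sqrt (q - 1) : ℕ) : ℝ) := by exact_mod_cast h1
    push_cast at h3
    linarith
  calc ∑ A ∈ (Icc q Y).filter (fun A : ℕ => ∃ N : ℕ, N ∣ q - 1 ∧ ((q : ℤ) ∣ (A : ℤ) - N ∨ (q : ℤ) ∣ (A : ℤ) + N)), (1 : ℝ) / A
      ≤ ∑ A ∈ (Icc q Y).filter (fun A : ℕ => ∃ N : ℕ, N ∣ q - 1 ∧ ((q : ℤ) ∣ (A : ℤ) - N ∨ (q : ℤ) ∣ (A : ℤ) + N)),
        ∑ N ∈ T, ((if A % q = N then (1 : ℝ) / A else 0) + (if A % q = q - N then (1 : ℝ) / A else 0)) :=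
        sum_le_sum hpt
    _ ≤ ∑ A ∈ Icc q Y, ∑ N ∈ T, ((if A % q = N then (1 : ℝ) / A else 0) + (if A % q = q - N then (1 : ℝ) / A else 0)) := by
        refine sum_le_sum_of_subset_of_nonneg (filter_subset _ _) (fun A _ _ => sum_nonneg fun N _ => ?_)
        have h1 : (0 : ℝ) ≤ if A % q = N then (1 : ℝ) / A else 0 := by split_ifs <;> positivity
        have h2 : (0 : ℝ) ≤ if A % q = q - N then (1 : ℝ) / A else 0 := by split_ifs <;> positivity
        exact add_nonneg h1 h2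
    _ = ∑ N ∈ T, (∑ A ∈ (Icc q Y).filter (fun A => A % q = N), (1 : ℝ) / A +
          ∑ A ∈ (Icc q Y).filter (fun A => A % q = q - N), (1 : ℝ) / A) := by
        rw [sum_comm]
        refine sum_congr rfl fun N _ => ?_
        rw [sum_add_distrib, sum_filter, sum_filter]
    _ ≤ ∑ _N ∈ T, ((1 + Real.log Y) / q + (1 + Real.log Y) / q) :=
        sum_le_sum fun N _ => add_le_add (cls q Y N hq) (cls q Y (q - N) hq)
    _ = #T * (2 * ((1 + Real.log Y) / q)) := by rw [sum_const, nsmul_eq_mul]; ring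
    _ ≤ 2 * √q * (2 * ((1 + Real.log Y) / q)) := mul_le_mul_of_nonneg_right hcard (by positivity)
    _ = 4 * (1 + Real.log Y) / √q := by
        have hs : √(q : ℝ) * √q = q := Real.mul_self_sqrt hq0.le
        have hs0 : 0 < √(q : ℝ) := Real.sqrt_pos.2 hq0
        rw [eq_div_iff hs0.ne']
        have e : 2 * √(q : ℝ) * (2 * ((1 + Real.log Y) / q)) * √q = 4 * (1 + Real.log Y) * ((√q * √q) / q) := by ring
        rw [e, hs, div_self hq0.ne', mul_one]

theorem hRES : StRES := fun q Y hq hY => resNat q Y hq hY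

end Pool.Agent.Helper98.DN
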